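import Mathlib
import Pool.Agent.Helper44.SPL.Chain

/-!
# Splinters ascend along flat maps with geometrically regular fibres

By Popescu's theorem, a homomorphism `R → S` of Noetherian rings is flat with geometrically regular
fibres if and only if `S` is a filtered colimit of smooth `R`-algebras. We prove: if `R` is a
splinter and `S` is Noetherian and a filtered colimit of smooth `R`-algebras then `S` is a
splinter. In particular (`S = R[x]`) polynomial rings over splinters are splinters.
-/

set_option autoImplicit false

namespace Pool.Agent.Results.MP_1e9343_ag.RegularAscent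

universe u

/-- A commutative ring `A` is a splinter if it is Noetherian and every finite ring map `A → T`
that is surjective on prime spectra splits as a map of `A`-modules, that is, there is an
`A`-linear map `ρ : T → A` with `ρ 1 = 1`. -/
def IsSplinter (A : Type u) [CommRing A] : Prop :=
  IsNoetherianRing A ∧
    ∀ (T : Type u) [CommRing T] [Algebra A T], Module.Finite A T →
      Function.Surjective (PrimeSpectrum.comap (algebraMap A T)) →
        ∃ ρ : T →ₗ[A] A, ρ 1 = 1

/-- The `R`-algebra `S` is a filtered colimit of smooth `R`-algebras, in the following equivalent
form: every homomorphism of `R`-algebras from a finitely presented `R`-algebra `P` to `S` factors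
through a smooth `R`-algebra `Q`. -/
def IsColimitOfSmooth (R S : Type u) [CommRing R] [CommRing S] [Algebra R S] : Prop :=
  ∀ (P : Type u) [CommRing P] [Algebra R P], Algebra.FinitePresentation R P →
    ∀ f : P →ₐ[R] S, ∃ (Q : Type u) (_ : CommRing Q) (_ : Algebra R Q),
      Algebra.Smooth R Q ∧ ∃ (g : P →ₐ[R] Q) (h : Q →ₐ[R] S), h.comp g = f

/-- If `R` is a splinter and the Noetherian ring `S` is a filtered colimit of smooth `R`-algebras
then `S` is a splinter. -/
theorem result (R S : Type u) [CommRing R] [CommRing S] [Algebra R S] (hR : IsSplinter R)
    (hS : IsNoetherianRing S) (hRS : IsColimitOfSmooth R S) : IsSplinter S :=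
  Pool.Agent.Helper44.SPL.c_IND R S hR hS hRS

/-- The special case `S = R[x]`. -/
theorem polynomial (R : Type u) [CommRing R] (hR : IsSplinter R) : IsSplinter (Polynomial R) := by
  have := hR.1
  exact result R (Polynomial R) hR inferInstance fun P _ _ _ f =>
    ⟨Polynomial R, inferInstance, inferInstance, ⟨inferInstance, inferInstance⟩, f, AlgHom.id R _, rfl⟩

end Pool.Agent.Results.MP_1e9343_ag.RegularAscent
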